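import Mathlib
import Pool.Agent.H16.LA.S8.TH910.LS.Mink
import Pool.Agent.H16.LA.S8.TH942.Ner

/-!
# Quadratic forms on powers of an abelian group

`q` satisfies the parallelogram law on `A`; a symmetric integral matrix `M` gives a quadratic form
on `A ^ κ`.  Its values at non-torsion points are at least the least value of `q` at a non-torsion
element of the subgroup generated by the coordinates.
-/

set_option autoImplicit false
set_option linter.unusedSectionVars false

open MeasureTheory Filter Topology Matrix Module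

namespace Pool.Agent.TH910.LS

open Pool.Agent.TH942

variable {A : Type} [AddCommGroup A] {κ : Type} [Fintype κ] [DecidableEq κ]

/-- the value of the form of `M` at the point `P` of `A ^ κ` -/
noncomputable def qM (q : A → ℝ) (M : Matrix κ κ ℤ) (P : κ → A) : ℝ :=
  ∑ i, ∑ j, (M i j : ℝ) * TH942.gram q P i j

/-- the independent case -/
theorem indep_bound [Nonempty κ] (q : A → ℝ) (hq0 : ∀ P, 0 ≤ q P)
    (hq : ∀ P Q, q (P + Q) + q (P - Q) = 2 * (q P + q Q)) (P : κ → A) (M : Matrix κ κ ℤ)
    (hM : (M.map (Int.cast : ℤ → ℝ)).PosDef) {μ : ℝ} (hμ : 0 < μ)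
    (h : ∀ c : κ → ℤ, c ≠ 0 → μ ≤ q (∑ i, c i • P i)) :
    μ ^ (Fintype.card κ) * (M.det : ℝ) ≤ qM q M P ^ (Fintype.card κ) := by
  have hps : (TH942.gram q P).PosSemidef := by
    apply posSemidef_of_int' _ (gram_symm q P)
    intro c
    have := q_comb q hq P 0 IsOfFinAddOrder.zero c
    rw [add_zero] at this
    rw [← this]
    exact hq0 _
  have h1 := trace_form hM.posSemidef hps hμ (fun c hc => by
    have h2 := q_comb q hq P 0 IsOfFinAddOrder.zero c
    rw [add_zero] at h2
    rw [← h2]
    exact h c hc)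
  have h2 : (M.map (Int.cast : ℤ → ℝ)).det = (M.det : ℝ) := by
    have := (Int.castRingHom ℝ).map_det M
    exact this.symm
  rw [h2] at h1
  exact h1

lemma swap4 {α β γ δ : Type} [Fintype α] [Fintype β] [Fintype γ] [Fintype δ]
    (f : α → β → γ → δ → ℝ) :
    ∑ i, ∑ j, ∑ k, ∑ l, f i j k l = ∑ k, ∑ l, ∑ i, ∑ j, f i j k l := by
  have h1 : ∑ i, ∑ j, ∑ k, ∑ l, f i j k l = ∑ x : α × β, ∑ y : γ × δ, f x.1 x.2 y.1 y.2 := by
    simp only [Fintype.sum_prod_type]
  have h2 : ∑ k, ∑ l, ∑ i, ∑ j, f i j k l = ∑ y : γ × δ, ∑ x : α × β, f x.1 x.2 y.1 y.2 := by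
    simp only [Fintype.sum_prod_type]
  rw [h1, h2, Finset.sum_comm]

/-- **The bound for the form of `M`**. -/
theorem group_bound (q : A → ℝ) (hq0 : ∀ P, 0 ≤ q P)
    (hq : ∀ P Q, q (P + Q) + q (P - Q) = 2 * (q P + q Q)) (P : κ → A) (M : Matrix κ κ ℤ)
    (hM : (M.map (Int.cast : ℤ → ℝ)).PosDef) (hP : ∃ i, ¬ IsOfFinAddOrder (P i))
    {μ : ℝ} (hμ : 0 < μ)
    (h : ∀ Q ∈ AddSubgroup.closure (Set.range P), ¬ IsOfFinAddOrder Q → μ ≤ q Q) :
    μ ≤ qM q M P := by
  set H := AddSubgroup.closure (Set.range P) with hH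
  have hmem : ∀ i, P i ∈ H := fun i => AddSubgroup.subset_closure ⟨i, rfl⟩
  have hfg : AddGroup.FG H :=
    (AddGroup.fg_iff_addSubgroup_fg H).2 ⟨(Set.finite_range P).toFinset, by simp [hH]⟩
  obtain ⟨r, b, hb⟩ := exists_basis hfg
  -- the coordinates of the points
  set a : Matrix κ (Fin r) ℤ := Matrix.of fun i => crd hb ⟨P i, hmem i⟩ with ha
  obtain ⟨B, hB1, hB2⟩ := H437R2.Man.MW.polar q hq
  have hgram : ∀ {κ' : Type} [Fintype κ'] [DecidableEq κ'] (g : κ' → A) (i j : κ'),
      TH942.gram q g i j = B (g i) (g j) := by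
    intro κ' _ _ g i j
    simp only [TH942.gram, Matrix.of_apply]
    rw [← hB1, ← hB1, ← hB1]
    simp only [map_add, AddMonoidHom.add_apply]
    rw [hB2 (g j) (g i)]
    ring
  have ht0 : ∀ t, IsOfFinAddOrder t → ∀ P, B P t = 0 := by
    intro t ht P
    obtain ⟨n, hn, h⟩ := isOfFinAddOrder_iff_nsmul_eq_zero.1 ht
    have h1 : B P (n • t) = 0 := by rw [h, map_zero]
    rw [map_nsmul, smul_eq_zero] at h1
    rcases h1 with h2 | h2
    · omega
    · exact h2
  -- the points as combinations
  have hPi : ∀ i, ∃ t, IsOfFinAddOrder t ∧ P i = ∑ k, a i k • (b k : A) + t := by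
    intro i
    have h1 := crd_spec hb ⟨P i, hmem i⟩
    refine ⟨P i - ∑ k, a i k • (b k : A), ?_, by abel⟩
    have h2 : ((⟨P i, hmem i⟩ - ∑ k, crd hb ⟨P i, hmem i⟩ k • b k : H) : A) =
        P i - ∑ k, a i k • (b k : A) := by
      simp [ha]
    rw [← h2]
    exact (AddSubmonoid.isOfFinAddOrder_coe (H := H.toAddSubmonoid)).2 h1
  choose t ht hPt using hPi
  set G : Matrix (Fin r) (Fin r) ℝ := TH942.gram q (fun k => (b k : A)) with hG
  have hgr : ∀ i j, TH942.gram q P i j = ∑ k, ∑ l, (a i k : ℝ) * (a j l : ℝ) * G k l := by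
    intro i j
    rw [hgram, hPt i, hPt j, map_add (B _), ht0 _ (ht j), add_zero, hB2, map_add (B _),
      ht0 _ (ht i), add_zero, hB2]
    simp only [map_sum, map_zsmul, AddMonoidHom.finsetSum_apply, AddMonoidHom.smul_apply]
    rw [Finset.sum_comm]
    apply Finset.sum_congr rfl
    intro k _
    rw [Finset.smul_sum]
    apply Finset.sum_congr rfl
    intro l _
    rw [hG, hgram]
    simp only [zsmul_eq_mul]
    ring
  -- the new matrix
  set aR : Matrix κ (Fin r) ℝ := a.map (Int.cast : ℤ → ℝ) with haR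
  set MR : Matrix κ κ ℝ := M.map (Int.cast : ℤ → ℝ) with hMR
  have hval : qM q M P = ∑ k, ∑ l, (aRᴴ * MR * aR) k l * G k l := by
    have h1 : ∀ k l, (aRᴴ * MR * aR) k l = ∑ i, ∑ j, (M i j : ℝ) * (a i k : ℝ) * (a j l : ℝ) := by
      intro k l
      rw [Matrix.mul_apply]
      simp only [Matrix.mul_apply, Finset.sum_mul]
      rw [Finset.sum_comm]
      apply Finset.sum_congr rfl
      intro i _
      apply Finset.sum_congr rfl
      intro j _
      simp only [haR, hMR, Matrix.conjTranspose_apply, Matrix.map_apply, star_trivial]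
      ring
    unfold qM
    simp only [hgr, h1, Finset.mul_sum, Finset.sum_mul]
    rw [swap4]
    apply Finset.sum_congr rfl
    intro k _
    apply Finset.sum_congr rfl
    intro l _
    apply Finset.sum_congr rfl
    intro i _
    apply Finset.sum_congr rfl
    intro j _
    ring
  -- injectivity
  have hinj : Function.Injective aR.mulVec := by
    have h0 : ∀ v : Fin r → ℝ, aR *ᵥ v = 0 → v = 0 := by
      intro v hv
      have h1 : ∀ x (hx : x ∈ H), ∑ k, (crd hb ⟨x, hx⟩ k : ℝ) * v k = 0 := by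
        intro x hx
        induction hx using AddSubgroup.closure_induction with
        | mem x hx =>
          obtain ⟨i, rfl⟩ := hx
          have := congrFun hv i
          simpa [Matrix.mulVec, dotProduct, haR, ha] using this
        | zero =>
          have : crd hb (⟨0, AddSubgroup.zero_mem _⟩ : H) = 0 := (crdHom hb).map_zero
          rw [this]
          simp
        | add x y hx hy h1 h2 =>
          have : crd hb (⟨x + y, AddSubgroup.add_mem _ hx hy⟩ : H) =
              crd hb ⟨x, hx⟩ + crd hb ⟨y, hy⟩ := (crdHom hb).map_add ⟨x, hx⟩ ⟨y, hy⟩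
          rw [this]
          simp only [Pi.add_apply, Int.cast_add, add_mul, Finset.sum_add_distrib]
          rw [h1, h2, add_zero]
        | neg x hx h1 =>
          have : crd hb (⟨-x, AddSubgroup.neg_mem _ hx⟩ : H) = - crd hb ⟨x, hx⟩ :=
            (crdHom hb).map_neg ⟨x, hx⟩
          rw [this]
          simp only [Pi.neg_apply, Int.cast_neg, neg_mul, Finset.sum_neg_distrib]
          rw [h1, neg_zero]
      ext k
      obtain ⟨x, hx⟩ := crdHom_surj hb (Pi.single k 1)
      have h2 := h1 x.1 x.2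
      have h3 : crd hb ⟨x.1, x.2⟩ = Pi.single k 1 := hx
      rw [h3, Finset.sum_eq_single k] at h2
      · simpa using h2
      · intro l _ hl
        rw [Pi.single_eq_of_ne hl]
        simp
      · intro hk
        exact absurd (Finset.mem_univ k) hk
    intro v w hvw
    have := h0 (v - w) (by rw [Matrix.mulVec_sub, sub_eq_zero]; exact hvw)
    exact sub_eq_zero.1 this
  have hN : (aRᴴ * MR * aR).PosDef := hM.conjTranspose_mul_mul_same hinj
  have hdet : (1 : ℝ) ≤ (aRᴴ * MR * aR).det := by
    have h1 : aRᴴ * MR * aR = (aᵀ * M * a).map (Int.cast : ℤ → ℝ) := by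
      have h2 : aRᴴ = (aᵀ).map (Int.cast : ℤ → ℝ) := by
        ext i j
        simp [haR]
      rw [h2, hMR, haR]
      have h3 := Matrix.map_mul (L := aᵀ) (M := M) (f := Int.castRingHom ℝ)
      have h4 := Matrix.map_mul (L := aᵀ * M) (M := a) (f := Int.castRingHom ℝ)
      simp only [Int.coe_castRingHom] at h3 h4
      rw [h4, h3]
    have h2 : ((aᵀ * M * a).map (Int.cast : ℤ → ℝ)).det = ((aᵀ * M * a).det : ℝ) := by
      have := (Int.castRingHom ℝ).map_det (aᵀ * M * a)
      exact this.symm
    have h3 := hN.det_pos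
    rw [h1, h2] at h3 ⊢
    have h4 : 0 < (aᵀ * M * a).det := by exact_mod_cast h3
    exact_mod_cast h4
  -- the rank is positive
  have hne : Nonempty (Fin r) := by
    by_contra hcon
    rw [not_nonempty_iff] at hcon
    obtain ⟨i, hi⟩ := hP
    apply hi
    rw [hPt i, Finset.univ_eq_empty, Finset.sum_empty, zero_add]
    exact ht i
  have hps : G.PosSemidef := by
    apply posSemidef_of_int' _ (gram_symm q _)
    intro c
    have := q_comb q hq (fun k => (b k : A)) 0 IsOfFinAddOrder.zero c
    rw [add_zero] at this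
    rw [← this]
    exact hq0 _
  have hlow : ∀ c : Fin r → ℤ, c ≠ 0 → μ ≤ ∑ i, ∑ j, (c i : ℝ) * (c j : ℝ) * G i j := by
    intro c hc
    have h1 := q_comb q hq (fun k => (b k : A)) 0 IsOfFinAddOrder.zero c
    rw [add_zero] at h1
    rw [← h1]
    have h2 : ((∑ k, c k • b k : H) : A) = ∑ k, c k • (b k : A) := by simp
    rw [← h2]
    apply h _ (∑ k, c k • b k : H).2
    intro h3
    have h4 : IsOfFinAddOrder (∑ k, c k • b k : H) :=
      (AddSubmonoid.isOfFinAddOrder_coe (H := H.toAddSubmonoid)).1 h3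
    apply hc
    have h5 : crd hb (∑ k, c k • b k) = c := crd_eq hb (by rw [sub_self]; exact IsOfFinAddOrder.zero)
    have h6 : crd hb (∑ k, c k • b k) = 0 := crd_eq hb (by simpa using h4)
    rw [← h5, h6]
  have hmain := trace_form hN.posSemidef hps hμ hlow
  rw [← hval] at hmain
  have hq1 : 0 ≤ qM q M P := by
    rw [hval]
    -- the trace of a product of positive semidefinite matrices
    obtain ⟨R, hR⟩ := exists_sqrt hps
    have h1 : (R * (aRᴴ * MR * aR) * Rᴴ).PosSemidef := hN.posSemidef.mul_mul_conjTranspose_same R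
    have h2 := h1.trace_nonneg
    have h3 : (R * (aRᴴ * MR * aR) * Rᴴ).trace = ∑ i, ∑ j, (aRᴴ * MR * aR) i j * G i j := by
      rw [Matrix.mul_assoc, Matrix.trace_mul_comm, Matrix.mul_assoc (aRᴴ * MR * aR), ← hR,
        Matrix.trace]
      apply Finset.sum_congr rfl
      intro i _
      rw [Matrix.diag_apply, Matrix.mul_apply]
      apply Finset.sum_congr rfl
      intro j _
      have : G j i = G i j := by
        have := hps.isHermitian.apply i j
        simpa using this
      rw [this]
    rw [h3] at h2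
    exact h2
  have hfin : μ ^ (Fintype.card (Fin r)) ≤ qM q M P ^ (Fintype.card (Fin r)) :=
    (le_mul_of_one_le_right (by positivity) hdet).trans hmain
  exact le_of_pow_le_pow_left₀ Fintype.card_ne_zero hq1 hfin

end Pool.Agent.TH910.LS
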